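import Mathlib.Data.Int.Star
import Mathlib.Algebra.Order.Ring.Star
import Mathlib.Algebra.Order.Star.Real
import Mathlib.Algebra.Ring.IsFormallyReal
import Mathlib.Analysis.Complex.ExponentialBounds
import Mathlib.Data.Rat.Star
import Mathlib.Tactic.Algebra.Basic
import Mathlib.Tactic.NormNum.Irrational

-- ======== part 0: formerly Pool.Agent.MP_110442_nt.Mk.Tree
section MrgPart0

set_option autoImplicit false

/-! A Markov-type tree of solvable values. -/

namespace Pool.Agent.MP_110442_nt.Mk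

open Real

/-- `n` is solvable. -/
def Sol (n : ℕ) : Prop :=
  ∃ a b c d : ℚ, 0 < a ∧ 0 < b ∧ 0 < c ∧ 0 < d ∧ (n : ℚ) = (a + b) * (c + d) ∧ a * b * c * d = 1

/-- Normalised weights of an integral point of the cubic surface. -/
def G (x y z : ℝ) : Prop :=
  ∃ b g d : ℤ, (b + d) ^ 2 + (g + d) ^ 2 = 8 * b * g * d ∧
    x = √2 * (4 * b - 1) ∧ y = √2 * (4 * g - 1) ∧ z = 8 * d

lemma s2 : √2 * √2 = (2 : ℝ) := Real.mul_self_sqrt two_pos.le

lemma s_lo : (1.4 : ℝ) < √2 := Real.lt_sqrt_of_sq_lt (by norm_num)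

lemma s_hi : √2 < (1.5 : ℝ) := (Real.sqrt_lt' (by norm_num)).2 (by norm_num)

lemma G.swap {x y z : ℝ} (h : G x y z) : G y x z := by
  obtain ⟨b, g, d, h1, h2, h3, h4⟩ := h
  exact ⟨g, b, d, by linear_combination h1, h3, h2, h4⟩

lemma G.mvz {x y z : ℝ} (h : G x y z) : G x y (x * y - (z + 2)) := by
  obtain ⟨b, g, d, h1, rfl, rfl, rfl⟩ := h
  refine ⟨b, g, 4 * b * g - b - g - d, by linear_combination h1, rfl, rfl, ?_⟩
  push_cast
  linear_combination ((4 * b - 1) * (4 * g - 1) : ℝ) * s2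

lemma G.mvx {x y z : ℝ} (h : G x y z) : G (y * z - (x + 2 * √2)) y z := by
  obtain ⟨b, g, d, h1, rfl, rfl, rfl⟩ := h
  refine ⟨8 * g * d - 2 * d - b, g, d, by linear_combination h1, ?_, rfl, rfl⟩
  push_cast
  ring

lemma G.sol {x y z : ℝ} (h : G x y z) (hx : 0 < x) (hy : 0 < y) :
    ∃ n : ℕ, Sol n ∧ (n : ℝ) + 4 = x * y - (√2 * (x + y) - 2) := by
  obtain ⟨b, g, d, h1, rfl, rfl, rfl⟩ := h
  have hs : (0 : ℝ) < √2 := by positivity
  have hb : 1 ≤ b := by
    have h := (mul_pos_iff_of_pos_left hs).1 hx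
    have : (0 : ℤ) < 4 * b - 1 := by exact_mod_cast h
    omega
  have hg : 1 ≤ g := by
    have h := (mul_pos_iff_of_pos_left hs).1 hy
    have : (0 : ℤ) < 4 * g - 1 := by exact_mod_cast h
    omega
  have hd : d ≠ 0 := by
    rintro rfl
    nlinarith
  have hn : (0 : ℤ) ≤ 8 * (2 * b - 1) * (2 * g - 1) - 4 := by nlinarith
  obtain ⟨n, hn⟩ := Int.eq_ofNat_of_zero_le hn
  refine ⟨n, ?_, ?_⟩
  · have hb' : (0 : ℚ) < b := by exact_mod_cast hb
    have hg' : (0 : ℚ) < g := by exact_mod_cast hg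
    have hd' : (d : ℚ) ≠ 0 := by exact_mod_cast hd
    have h1' : ((b : ℚ) + d) ^ 2 + (g + d) ^ 2 = 8 * b * g * d := by exact_mod_cast h1
    have hn' : (n : ℚ) = 8 * (2 * b - 1) * (2 * g - 1) - 4 := by exact_mod_cast hn.symm
    refine ⟨(b ^ 2 + g ^ 2) / (2 * d ^ 2), 2 * d ^ 2 / (b ^ 2 + g ^ 2), b / g, g / b,
      by positivity, by positivity, by positivity, by positivity, ?_, by field_simp⟩
    rw [hn']
    field_simp
    linear_combination (-(b ^ 2 + g ^ 2 + 8 * b * g * d - 2 * d * (b + g) + 2 * d ^ 2) : ℚ) * h1'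
  · have hn' : (n : ℝ) = 8 * (2 * b - 1) * (2 * g - 1) - 4 := by exact_mod_cast hn.symm
    rw [hn']
    linear_combination (-((4 * b - 2) * (4 * g - 2) - 1) : ℝ) * s2

lemma log_sub {u p t : ℝ} (hu : 0 < u) (hp : 0 ≤ p) (hpt : p ≤ t * u) (ht : t ≤ 1 / 2) :
    |log (u - p) - log u| ≤ 2 * t := by
  have h1 : u / 2 ≤ u - p := by nlinarith
  have h0 : 0 < u - p := by linarith
  have h2 : log (u - p) ≤ log u := log_le_log h0 (by linarith)
  have h3 : log (u / (u - p)) ≤ u / (u - p) - 1 := log_le_sub_one_of_pos (by positivity)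
  rw [log_div hu.ne' h0.ne'] at h3
  have h4 : u / (u - p) ≤ 1 + 2 * t := by
    rw [div_le_iff₀ h0]
    have ht0 : 0 ≤ t := by
      by_contra hc
      nlinarith
    nlinarith
  rw [abs_le]
  constructor <;> linarith

lemma step {M x y p : ℝ} (hM : 10 ≤ M) (hx : M ≤ x) (hy : M ≤ y) (hp : 0 ≤ p)
    (hp2 : p ≤ 2 * (x + y)) :
    y ≤ x * y - p ∧ |log (x * y - p) - log x - log y| ≤ 8 / M := by
  have hM0 : 0 < M := by linarith
  have hx0 : 0 < x := by linarith
  have hy0 : 0 < y := by linarith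
  have h1 : p ≤ 4 / M * (x * y) := by
    rw [div_mul_eq_mul_div, le_div_iff₀ hM0]
    nlinarith [mul_le_mul_of_nonneg_left hx hy0.le, mul_le_mul_of_nonneg_left hy hx0.le]
  have h2 : 4 / M ≤ 1 / 2 := by
    rw [div_le_iff₀ hM0]
    linarith
  refine ⟨by nlinarith [mul_pos hx0 hy0], ?_⟩
  have h3 := log_sub (mul_pos hx0 hy0) hp h1 h2
  rw [log_mul hx0.ne' hy0.ne'] at h3
  have e : 2 * (4 / M) = 8 / M := by ring
  rw [← e, sub_sub]
  exact h3

/-- The position of the third type of vertex, read off from the parities. -/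
def Cond (i j : ℕ) (x y z : ℝ) : Prop :=
  (i % 2 = 1 ∧ j % 2 = 1 ∧ G x y z) ∨ (i % 2 = 1 ∧ j % 2 = 0 ∧ G y z x) ∨
    (i % 2 = 0 ∧ j % 2 = 1 ∧ G x z y)

lemma Cond.swap {i j : ℕ} {x y z : ℝ} (h : Cond i j x y z) : Cond j i y x z := by
  rcases h with ⟨a, b, c⟩ | ⟨a, b, c⟩ | ⟨a, b, c⟩
  · exact Or.inl ⟨b, a, c.swap⟩
  · exact Or.inr (Or.inr ⟨b, a, c⟩)
  · exact Or.inr (Or.inl ⟨b, a, c⟩)

lemma Cond.mv {i j : ℕ} {x y z : ℝ} (h : Cond (i + j) j x y z) :
    ∃ c : ℝ, 0 ≤ c ∧ c ≤ 3 ∧ Cond i j x (x * y - (z + c)) y := by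
  have := s_lo
  have := s_hi
  rcases h with ⟨a, b, c⟩ | ⟨a, b, c⟩ | ⟨a, b, c⟩
  · exact ⟨2, by norm_num, by norm_num, Or.inr (Or.inr ⟨by omega, b, c.mvz⟩)⟩
  · refine ⟨2 * √2, by linarith, by linarith, Or.inr (Or.inl ⟨by omega, b, ?_⟩)⟩
    rw [mul_comm x y]
    exact c.swap.mvx
  · exact ⟨2 * √2, by linarith, by linarith, Or.inl ⟨by omega, b, c.swap.mvx.swap⟩⟩

lemma euclid {M : ℝ} (hM : 10 ≤ M) (s : ℕ) : ∀ (i j : ℕ) (x y z : ℝ), i + j ≤ s → 0 < i → 0 < j →
    Nat.Coprime i j → M ≤ x → M ≤ y → 0 ≤ z → z ≤ x + y → Cond i j x y z →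
    ∃ n : ℕ, Sol n ∧ |log (n + 4) - i * log x - j * log y| ≤ (i + j) * (8 / M) := by
  induction s with
  | zero => intro i j x y z h hi; omega
  | succ s ih =>
    have key : ∀ (i j : ℕ) (x y z : ℝ), i + j ≤ s + 1 → j < i → 0 < j →
        Nat.Coprime i j → M ≤ x → M ≤ y → 0 ≤ z → z ≤ x + y → Cond i j x y z →
        ∃ n : ℕ, Sol n ∧ |log (n + 4) - i * log x - j * log y| ≤ (i + j) * (8 / M) := by
      intro i j x y z hs hij hj hc hx hy hz hz2 h
      obtain ⟨i, rfl⟩ := Nat.exists_eq_add_of_le' hij.le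
      obtain ⟨c, hc0, hc3, h'⟩ := h.mv
      obtain ⟨h1, h2⟩ := step (p := z + c) hM hx hy (by linarith) (by linarith)
      obtain ⟨n, hn, h3⟩ := ih i j x _ y (by omega) (by omega) hj (by simpa using hc) hx
        (hy.trans h1) (by linarith) (by linarith) h'
      refine ⟨n, hn, ?_⟩
      have hj0 : (0 : ℝ) ≤ j := Nat.cast_nonneg j
      rw [abs_le] at h2 h3 ⊢
      have h4 := mul_le_mul_of_nonneg_left h2.1 hj0
      have h5 := mul_le_mul_of_nonneg_left h2.2 hj0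
      push_cast
      constructor <;> linarith [h3.1, h3.2]
    intro i j x y z hs hi hj hc hx hy hz hz2 h
    rcases lt_trichotomy j i with hij | hij | hij
    · exact key i j x y z hs hij hj hc hx hy hz hz2 h
    · subst hij
      have hj1 : j = 1 := by simpa using hc
      subst hj1
      have hG : G x y z := by
        rcases h with ⟨-, -, c⟩ | ⟨-, b, -⟩ | ⟨a, -, -⟩
        · exact c
        · omega
        · omega
      obtain ⟨n, hn, h1⟩ := hG.sol (by linarith) (by linarith)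
      have := s_lo
      have := s_hi
      obtain ⟨-, h2⟩ := step (p := √2 * (x + y) - 2) hM hx hy (by nlinarith) (by nlinarith)
      refine ⟨n, hn, ?_⟩
      have h8 : 0 ≤ 8 / M := by positivity
      rw [h1]
      push_cast
      rw [one_mul, one_mul]
      linarith
    · obtain ⟨n, hn, h1⟩ := key j i y x z (by omega) hij hi hc.symm hy hx hz (by linarith) h.swap
      refine ⟨n, hn, ?_⟩
      rw [sub_right_comm, add_comm (i : ℝ)]
      exact h1

end Pool.Agent.MP_110442_nt.Mk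

end MrgPart0

-- ======== part 1: formerly Pool.Agent.MP_110442_nt.Mk.Base
section MrgPart1

set_option autoImplicit false

/-! The fan around `d = 1` and the two-term expansion of the values in its subtrees. -/

namespace Pool.Agent.MP_110442_nt.Mk

open Real

noncomputable def l : ℝ := 4 + √15
noncomputable def m : ℝ := 4 - √15
noncomputable def rho : ℝ := (l + 1) / 8
noncomputable def k : ℝ := √2 / (3 * rho)
noncomputable def w (a : ℕ) : ℝ := √2 / 3 + k * l ^ a + k * l * m ^ a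

lemma r15 : √15 * √15 = (15 : ℝ) := Real.mul_self_sqrt (by norm_num)

lemma l_lo : (7.8 : ℝ) < l := by
  have : (3.8 : ℝ) < √15 := Real.lt_sqrt_of_sq_lt (by norm_num)
  unfold l
  linarith

lemma l_hi : l < 8 := by
  have : √15 < (4 : ℝ) := (Real.sqrt_lt' (by norm_num)).2 (by norm_num)
  unfold l
  linarith

lemma lm : l * m = 1 := by
  unfold l m
  linear_combination (-1 : ℝ) * r15

lemma m_pos : 0 < m := by
  have := lm
  have := l_lo
  by_contra h
  nlinarith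

lemma m_hi : m < 1 / 7 := by
  have := lm
  have := l_lo
  have := m_pos
  nlinarith

lemma l_sq : l * l = 8 * l - 1 := by
  unfold l
  linear_combination r15

lemma m_sq : m * m = 8 * m - 1 := by
  unfold m
  linear_combination r15

lemma rho_lo : 1.1 < rho := by
  have := l_lo
  unfold rho
  linarith

lemma rho_hi : rho < 1.125 := by
  have := l_hi
  unfold rho
  linarith

lemma k_rho : k * rho = √2 / 3 := by
  have := rho_lo
  unfold k
  field_simp

lemma k_lo : 0.4 < k := by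
  have := k_rho
  have := rho_hi
  have := rho_lo
  have := s_lo
  by_contra h
  nlinarith

lemma k_hi : k < 0.5 := by
  have := k_rho
  have := rho_lo
  have := s_hi
  by_contra h
  nlinarith

lemma lm_pow (a : ℕ) : l ^ a * m ^ a = 1 := by rw [← mul_pow, lm, one_pow]

lemma G_w (a : ℕ) : G (w a) (w (a + 1)) 8 := by
  induction a with
  | zero =>
    have h : k * (l + 1) = 8 * √2 / 3 := by
      have := k_rho
      unfold rho at this
      linarith
    refine ⟨1, 1, 1, by norm_num, ?_, ?_, by norm_num⟩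
    · simp only [w]
      push_cast
      linear_combination h
    · simp only [w]
      push_cast
      linear_combination h + k * lm
  | succ a ih =>
    have h := ih.mvx.swap
    have e : w (a + 1) * 8 - (w a + 2 * √2) = w (a + 1 + 1) := by
      simp only [w, pow_succ]
      linear_combination (-k * l ^ a) * l_sq - (k * l * m ^ a) * m_sq
    rwa [e] at h

lemma m_pow_le {a : ℕ} (ha : 1 ≤ a) : m ^ a ≤ 1 / 7 := by
  have := m_pos
  have := m_hi
  calc m ^ a ≤ m ^ 1 := pow_le_pow_of_le_one (by linarith) (by linarith) ha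
    _ ≤ 1 / 7 := by linarith

lemma w_lo (a : ℕ) : 0.4 * l ^ a ≤ w a := by
  have := k_lo
  have := l_lo
  have := m_pos
  have h1 : 0 < l ^ a := by positivity
  have h2 : 0 ≤ k * l * m ^ a := by positivity
  have h3 : (0 : ℝ) ≤ √2 / 3 := by positivity
  unfold w
  nlinarith

lemma log_w {a : ℕ} (ha : 1 ≤ a) :
    |log (w a) - (log k + a * log l + rho * m ^ a)| ≤ 14 * (m ^ a) ^ 2 := by
  have hk := k_lo
  have hl := l_lo
  have hl2 := l_hi
  have hm := m_pos
  have hr := rho_lo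
  have hr2 := rho_hi
  have ht := m_pow_le ha
  have ht0 : 0 < m ^ a := by positivity
  have e : w a = k * l ^ a * (1 + (rho * m ^ a + l * (m ^ a) ^ 2)) := by
    unfold w
    linear_combination (-1 : ℝ) * k_rho - (k * rho + k * l * m ^ a) * lm_pow a
  generalize m ^ a = t at *
  have hu : 0 < rho * t + l * t ^ 2 := by positivity
  have hu2 : rho * t + l * t ^ 2 ≤ 2.3 * t := by nlinarith [mul_pos ht0 ht0]
  rw [e, log_mul (by positivity) (by positivity), log_mul (by positivity) (by positivity), log_pow]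
  have h3 : l * t ^ 2 ≤ 8 * t ^ 2 := by nlinarith
  have h4 : 0 ≤ l * t ^ 2 := by positivity
  obtain ⟨u, hu0⟩ : ∃ u, u = rho * t + l * t ^ 2 := ⟨_, rfl⟩
  rw [← hu0] at hu hu2 ⊢
  have h1 : log (1 + u) ≤ 1 + u - 1 := log_le_sub_one_of_pos (by positivity)
  have h2 : 1 - (1 + u)⁻¹ ≤ log (1 + u) := one_sub_inv_le_log_of_pos (by positivity)
  have h5 : (1 + u)⁻¹ ≤ 1 - u + u ^ 2 := by
    rw [inv_le_iff_one_le_mul₀ (by positivity)]
    nlinarith [pow_pos hu 3]
  have h6 : u ^ 2 ≤ (2.3 * t) ^ 2 := by gcongr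
  rw [abs_le]
  constructor <;> nlinarith

lemma base {a : ℕ} (ha : 2 ≤ a) : ∃ x y : ℝ, (l ^ a) ^ 2 ≤ x ∧ (l ^ a) ^ 2 ≤ y ∧ w a ≤ x + y ∧
    G y (w a) x ∧ |log x - log (w a) - log (w (a + 1))| ≤ 18 * (m ^ a) ^ 2 ∧
    |log y - log (w a) - log x| ≤ 50 * (m ^ a) ^ 2 := by
  have hl := l_lo
  have hm := m_pos
  have h0 := w_lo a
  have h1 := w_lo (a + 1)
  have hU : (49 : ℝ) ≤ l ^ a :=
    calc (49 : ℝ) ≤ l ^ 2 := by nlinarith
      _ ≤ l ^ a := pow_le_pow_right₀ (by linarith) ha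
  have hG := (G_w a).mvz.swap
  have hG2 := hG.mvx
  have hlm := lm_pow a
  have ht0 : 0 < m ^ a := by positivity
  have hs := s_hi
  have hs0 := s_lo
  rw [pow_succ] at h1
  generalize l ^ a = U at *
  generalize m ^ a = t at *
  generalize w a = u at *
  generalize w (a + 1) = v at *
  have hv : 3 * U ≤ v := by nlinarith
  have hu0 : 19 ≤ u := by linarith
  have hv0 : 147 ≤ v := by linarith
  have huv : 1.2 * U ^ 2 ≤ u * v := by nlinarith
  have hUt : U ^ 2 * t ^ 2 = 1 := by rw [← mul_pow, hlm, one_pow]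
  have ht2 : t ^ 2 ≤ 1 / 2401 := by nlinarith [sq_nonneg t]
  have hU2 : 2401 ≤ U ^ 2 := by nlinarith
  have e1 := log_sub (u := u * v) (p := 8 + 2) (t := 9 * t ^ 2) (by nlinarith) (by norm_num)
    (by nlinarith [sq_nonneg t]) (by linarith)
  rw [log_mul (by positivity) (by linarith)] at e1
  obtain ⟨x, hx⟩ : ∃ x, x = u * v - (8 + 2) := ⟨_, rfl⟩
  rw [← hx] at hG2 e1
  have hx1 : U ^ 2 ≤ x := by linarith
  have hx2 : u * v / 2 ≤ x := by linarith
  have hx0 : 0 < x := by linarith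
  have hut : 1 ≤ 6.25 * (u ^ 2 * t ^ 2) := by
    have : (0.4 * U) ^ 2 ≤ u ^ 2 := by gcongr
    nlinarith [sq_nonneg t]
  have hp : v + 2 * √2 ≤ 25 * t ^ 2 * (u * x) := by
    have h2 : u * (u * v / 2) ≤ u * x := by gcongr
    have h3 : 25 * t ^ 2 * (u * (u * v / 2)) ≤ 25 * t ^ 2 * (u * x) := by gcongr
    have h4 : v * 1 ≤ v * (6.25 * (u ^ 2 * t ^ 2)) := by gcongr
    nlinarith
  have e2 := log_sub (u := u * x) (p := v + 2 * √2) (t := 25 * t ^ 2) (by positivity)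
    (by linarith) hp (by linarith)
  rw [log_mul (by positivity) (by linarith)] at e2
  have hy : x ≤ u * x - (v + 2 * √2) := by
    have : 25 * t ^ 2 * (u * x) ≤ 1 / 2 * (u * x) := by gcongr; linarith
    nlinarith
  refine ⟨x, u * x - (v + 2 * √2), hx1, by linarith, by nlinarith, hG2, ?_, ?_⟩
  · rw [sub_sub]
    linarith
  · rw [sub_sub]
    linarith

/-- The two-term approximation of `log (n + 4)`. -/
noncomputable def F (a I J : ℕ) : ℝ :=
  (I + J) * log k + (a * I + (a + 1) * J) * log l + rho * (I * m ^ a + J * m ^ (a + 1))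

lemma vertex {a i j N : ℕ} (ha : 2 ≤ a) (hi : i % 2 = 1) (hj : 0 < j) (hc : Nat.Coprime i j)
    (hiN : i ≤ N) (hjN : j ≤ N) :
    ∃ n : ℕ, Sol n ∧ |log (n + 4) - F a (i + 4 * j) (i + 2 * j)| ≤ 300 * N * (m ^ a) ^ 2 := by
  obtain ⟨x, y, hx, hy, hz, hG, e1, e2⟩ := base ha
  have hl := l_lo
  have hm := m_pos
  have hm2 := m_hi
  have hM : (10 : ℝ) ≤ (l ^ a) ^ 2 := by
    have : l ^ 1 ≤ l ^ a := pow_le_pow_right₀ (by linarith) (by omega)
    nlinarith
  have hw : 0 ≤ w a := le_trans (by positivity) (w_lo a)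
  have hc2 : Nat.Coprime i (2 * j) :=
    Nat.Coprime.mul_right ((Nat.coprime_two_right).2 (Nat.odd_iff.2 hi)) hc
  obtain ⟨n, hn, e3⟩ := euclid hM _ i (2 * j) x y (w a) le_rfl (by omega) (by omega) hc2 hx hy hw hz
    (Or.inr (Or.inl ⟨hi, by omega, hG⟩))
  have e4 := log_w (a := a) (by omega)
  have e5 := log_w (a := a + 1) (by omega)
  have e6 : 8 / (l ^ a) ^ 2 = 8 * (m ^ a) ^ 2 := by
    rw [div_eq_iff (by positivity)]
    linear_combination (-8 * (l ^ a * m ^ a + 1)) * lm_pow a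
  have e7 : (m ^ (a + 1)) ^ 2 ≤ (m ^ a) ^ 2 :=
    pow_le_pow_left₀ (by positivity)
      (pow_le_pow_of_le_one hm.le (by linarith) (Nat.le_succ a)) 2
  rw [e6] at e3
  refine ⟨n, hn, ?_⟩
  have hi0 : (0 : ℝ) ≤ i := Nat.cast_nonneg i
  have hj0 : (0 : ℝ) ≤ j := Nat.cast_nonneg j
  have hiN' : (i : ℝ) * (m ^ a) ^ 2 ≤ N * (m ^ a) ^ 2 := by gcongr
  have hjN' : (j : ℝ) * (m ^ a) ^ 2 ≤ N * (m ^ a) ^ 2 := by gcongr
  have hN0 : 0 ≤ (N : ℝ) * (m ^ a) ^ 2 := by positivity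
  replace e5 := e5.trans (mul_le_mul_of_nonneg_left e7 (by norm_num))
  unfold F
  push_cast at e3 e5 ⊢
  rw [abs_le] at e1 e2 e3 e4 e5 ⊢
  constructor <;>
  linarith [e3.1, e3.2, mul_le_mul_of_nonneg_left e1.1 hi0, mul_le_mul_of_nonneg_left e1.2 hi0,
    mul_le_mul_of_nonneg_left e1.1 hj0, mul_le_mul_of_nonneg_left e1.2 hj0,
    mul_le_mul_of_nonneg_left e2.1 hj0, mul_le_mul_of_nonneg_left e2.2 hj0,
    mul_le_mul_of_nonneg_left e4.1 hi0, mul_le_mul_of_nonneg_left e4.2 hi0,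
    mul_le_mul_of_nonneg_left e4.1 hj0, mul_le_mul_of_nonneg_left e4.2 hj0,
    mul_le_mul_of_nonneg_left e5.1 hi0, mul_le_mul_of_nonneg_left e5.2 hi0,
    mul_le_mul_of_nonneg_left e5.1 hj0, mul_le_mul_of_nonneg_left e5.2 hj0]

end Pool.Agent.MP_110442_nt.Mk

end MrgPart1

-- ======== part 2: formerly Pool.Agent.MP_110442_nt.Mk.Col
section MrgPart2

set_option autoImplicit false

/-! No collisions in one of two windows: gap principle and Liouville inequality. -/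

namespace Pool.Agent.MP_110442_nt.Mk

open Real

lemma pow_repr (d : ℕ) : ∃ p q : ℤ, l ^ d = p + q * √15 ∧ m ^ d = p - q * √15 := by
  induction d with
  | zero => exact ⟨1, 0, by simp, by simp⟩
  | succ d ih =>
    obtain ⟨p, q, h1, h2⟩ := ih
    refine ⟨4 * p + 15 * q, p + 4 * q, ?_, ?_⟩
    · rw [pow_succ, h1, l]
      push_cast
      linear_combination (q : ℝ) * r15
    · rw [pow_succ, h2, m]
      push_cast
      linear_combination (q : ℝ) * r15

lemma irr15 : Irrational √15 := by norm_num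

lemma liou {I J I' J' : ℕ} (d : ℕ) {P : ℝ} (hI : 0 < I) (hP : (I : ℝ) + J ≤ P)
    (hP' : (I' : ℝ) + J' ≤ P) :
    (d = 0 ∧ I = I' ∧ J = J') ∨ 1 ≤ P * |(I * l + J) * l ^ d - (I' * l + J')| := by
  obtain ⟨p, q, h1, h2⟩ := pow_repr d
  have hl := l_lo
  have hm := m_pos
  have hm2 := m_hi
  have hlm := lm
  have hI0 : (0 : ℝ) < I := by exact_mod_cast hI
  have hJ0 : (0 : ℝ) ≤ J := Nat.cast_nonneg _
  have hI0' : (0 : ℝ) ≤ I' := Nat.cast_nonneg _
  have hJ0' : (0 : ℝ) ≤ J' := Nat.cast_nonneg _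
  obtain ⟨U, hU⟩ : ∃ U : ℤ, U = (4 * I + J) * p + 15 * I * q - (4 * I' + J') := ⟨_, rfl⟩
  obtain ⟨V, hV⟩ : ∃ V : ℤ, V = I * p + (4 * I + J) * q - I' := ⟨_, rfl⟩
  have e1 : (I * l + J) * l ^ d - (I' * l + J') = U + V * √15 := by
    rw [h1, l, hU, hV]
    push_cast
    linear_combination (I * q : ℝ) * r15
  have e2 : (I * m + J) * m ^ d - (I' * m + J') = U - V * √15 := by
    rw [h2, m, hU, hV]
    push_cast
    linear_combination (I * q : ℝ) * r15
  have e3 : (U + V * √15) * (U - V * √15) = ((U ^ 2 - 15 * V ^ 2 : ℤ) : ℝ) := by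
    push_cast
    linear_combination (-(V : ℝ) ^ 2) * r15
  by_cases h0 : U ^ 2 - 15 * V ^ 2 = 0
  · left
    have hV0 : V = 0 := by
      by_contra hne
      rw [h0, Int.cast_zero, mul_eq_zero] at e3
      have hi := irr15.intCast_mul hne
      rcases e3 with h | h
      · exact hi.ne_int (-U) (by push_cast; linarith)
      · exact hi.ne_int U (by linarith)
    have hU0 : U = 0 := by simpa [hV0] using h0
    rw [hV0, hU0] at e1 e2
    simp only [Int.cast_zero, zero_mul, add_zero, sub_zero] at e1 e2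
    have hd : d = 0 := by
      by_contra hd
      have h3 : l ^ 1 ≤ l ^ d := pow_le_pow_right₀ (by linarith) (by omega)
      have h4 : m ^ d ≤ m ^ 1 := pow_le_pow_of_le_one hm.le (by linarith) (by omega)
      rw [pow_one] at h3 h4
      have h5 : (I * l + J) * l ≤ (I * l + J) * l ^ d := by gcongr
      have h6 : (I * m + J) * m ^ d ≤ (I * m + J) * m := by gcongr
      have h7 : l * l * (I' * m + J') ≤ l * l * ((I * m + J) * m) := by gcongr; linarith
      have h8 : l * l * (I' * m + J') = I' * l + J' * (l * l) := by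
        linear_combination (I' * l) * hlm
      have h9 : l * l * ((I * m + J) * m) = I + J * l := by
        linear_combination (I * (l * m + 1) + J * l) * hlm
      have h10 : 1 < l * l := by nlinarith
      nlinarith [mul_le_mul_of_nonneg_left h10.le hJ0', mul_lt_mul_of_pos_left h10 hI0]
    subst hd
    rw [pow_zero] at e1 e2
    have h3 : ((I : ℝ) - I') * (l - m) = 0 := by linear_combination e1 - e2
    have h4 : (I : ℝ) = I' := by
      rcases mul_eq_zero.1 h3 with h | h <;> linarith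
    have h5 : (J : ℝ) = J' := by linear_combination e1 - l * h4
    exact ⟨rfl, by exact_mod_cast h4, by exact_mod_cast h5⟩
  · right
    have h3 : (1 : ℝ) ≤ |((U ^ 2 - 15 * V ^ 2 : ℤ) : ℝ)| := by exact_mod_cast Int.one_le_abs h0
    rw [← e3, ← e1, ← e2, abs_mul, mul_comm] at h3
    refine h3.trans (mul_le_mul_of_nonneg_right ?_ (abs_nonneg _))
    have h4 : m ^ d ≤ 1 := pow_le_one₀ hm.le (by linarith)
    have h5 : (I * m + J) * m ^ d ≤ (I * m + J) * 1 := by gcongr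
    have h6 : 0 ≤ (I * m + J) * m ^ d := by positivity
    rw [abs_le]
    constructor <;> nlinarith

/-- The first order term. -/
noncomputable def T (a I J : ℕ) : ℝ := I * m ^ a + J * m ^ (a + 1)

lemma sepT_le {a d I J I' J' C : ℕ} {P : ℝ} (ha : a + d < C) (hI : 0 < I) (hP : (I : ℝ) + J ≤ P)
    (hP' : (I' : ℝ) + J' ≤ P) (h : P * |T a I J - T (a + d) I' J'| < m ^ C) :
    d = 0 ∧ I = I' ∧ J = J' := by
  have hm := m_pos
  have hm2 := m_hi
  refine (liou d hI hP hP').resolve_right fun h1 => ?_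
  have e : T a I J - T (a + d) I' J' = m ^ (a + d + 1) * ((I * l + J) * l ^ d - (I' * l + J')) := by
    simp only [T, pow_succ, pow_add]
    linear_combination (I' * m ^ a * m ^ d - I * m ^ a) * lm -
      (m ^ a * m * (I * l + J)) * lm_pow d
  have h2 : m ^ C ≤ m ^ (a + d + 1) := pow_le_pow_of_le_one hm.le (by linarith) ha
  rw [e, abs_mul, abs_of_pos (pow_pos hm _)] at h
  nlinarith [mul_le_mul_of_nonneg_left h1 (pow_pos hm (a + d + 1)).le]

lemma sepT {a a' I J I' J' C : ℕ} {P : ℝ} (ha : a < C) (ha' : a' < C) (hI : 0 < I) (hI' : 0 < I')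
    (hP : (I : ℝ) + J ≤ P) (hP' : (I' : ℝ) + J' ≤ P) (h : P * |T a I J - T a' I' J'| < m ^ C) :
    a = a' ∧ I = I' ∧ J = J' := by
  rcases le_total a a' with h1 | h1
  · obtain ⟨d, rfl⟩ := Nat.exists_eq_add_of_le h1
    obtain ⟨h2, h3⟩ := sepT_le ha' hI hP hP' h
    exact ⟨by omega, h3⟩
  · obtain ⟨d, rfl⟩ := Nat.exists_eq_add_of_le h1
    rw [abs_sub_comm] at h
    obtain ⟨h2, h3, h4⟩ := sepT_le ha hI' hP' hP h
    exact ⟨by omega, h3.symm, h4.symm⟩

/-- The linear form in two logarithms. -/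
noncomputable def Lam (b e : ℤ) : ℝ := b * log k + e * log l

lemma log_l : 1 ≤ log l := by
  have := l_lo
  rw [le_log_iff_exp_le (by linarith)]
  linarith [exp_one_lt_d9]

lemma gap {b0 e0 b e : ℤ} {P ε1 ε2 : ℝ} (h0 : b0 ≠ 0 ∨ e0 ≠ 0) (hb0 : |(b0 : ℝ)| ≤ P)
    (hb : |(b : ℝ)| ≤ P) (hP : 1 ≤ P) (h2 : |Lam b0 e0| ≤ ε2) (h1 : |Lam b e| ≤ ε1)
    (h21 : ε2 ≤ ε1) (hs : 2 * P * ε1 < 1) : |Lam b e| ≤ P * ε2 := by
  have hl := log_l
  have hε2 : 0 ≤ ε2 := (abs_nonneg _).trans h2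
  have big : ∀ z : ℤ, |(z : ℝ) * log l| < 1 → z = 0 := by
    intro z hz
    by_contra hne
    have : (1 : ℝ) ≤ |(z : ℝ)| := by exact_mod_cast Int.one_le_abs hne
    rw [abs_mul, abs_of_pos (by linarith : 0 < log l)] at hz
    nlinarith
  have hb00 : b0 ≠ 0 := by
    rintro rfl
    refine h0.elim (fun h => h rfl) fun h => h (big _ ?_)
    simp only [Lam, Int.cast_zero, zero_mul, zero_add] at h2
    nlinarith
  have e1 : ((b0 * e - b * e0 : ℤ) : ℝ) * log l = b0 * Lam b e - b * Lam b0 e0 := by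
    unfold Lam
    push_cast
    ring
  have h3 : |b0 * Lam b e| ≤ P * ε1 := by
    rw [abs_mul]
    gcongr
  have h4 : |b * Lam b0 e0| ≤ P * ε2 := by
    rw [abs_mul]
    gcongr
  have h5 : b0 * e - b * e0 = 0 := by
    apply big
    rw [e1]
    have := abs_sub (b0 * Lam b e) (b * Lam b0 e0)
    nlinarith
  rw [h5] at e1
  have h6 : b0 * Lam b e = b * Lam b0 e0 := by
    push_cast at e1
    linarith
  rw [← h6, abs_mul] at h4
  have : (1 : ℝ) ≤ |(b0 : ℝ)| := by exact_mod_cast Int.one_le_abs hb00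
  nlinarith [abs_nonneg (Lam b e)]

lemma T_bd {A a I J : ℕ} {P : ℝ} (ha : A ≤ a) (hP : (I : ℝ) + J ≤ P) :
    0 ≤ T a I J ∧ T a I J ≤ P * m ^ A := by
  have hm := m_pos
  have hm2 := m_hi
  have h1 : m ^ a ≤ m ^ A := pow_le_pow_of_le_one hm.le (by linarith) ha
  have h2 : m ^ (a + 1) ≤ m ^ A := pow_le_pow_of_le_one hm.le (by linarith) (by omega)
  unfold T
  refine ⟨by positivity, ?_⟩
  calc _ ≤ I * m ^ A + J * m ^ A := by gcongr
    _ = (I + J) * m ^ A := by ring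
    _ ≤ _ := by gcongr

lemma F_sub {A a a' I J I' J' : ℕ} {P : ℝ} (ha : A ≤ a) (ha' : A ≤ a') (hP : (I : ℝ) + J ≤ P)
    (hP' : (I' : ℝ) + J' ≤ P) (h : |F a I J - F a' I' J'| ≤ 75 * P * (m ^ A) ^ 2) :
    ∃ b e : ℤ, |(b : ℝ)| ≤ P ∧ |Lam b e| ≤ 77 * P * m ^ A ∧
      |T a I J - T a' I' J'| ≤ |Lam b e| + 75 * P * (m ^ A) ^ 2 := by
  have hm := m_pos
  have hm2 := m_hi
  have hr := rho_lo
  have hr2 := rho_hi
  obtain ⟨h1, h2⟩ := T_bd ha hP
  obtain ⟨h3, h4⟩ := T_bd ha' hP'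
  have hI0 : (0 : ℝ) ≤ I + J := by positivity
  have hI0' : (0 : ℝ) ≤ I' + J' := by positivity
  obtain ⟨b, hb⟩ : ∃ b : ℤ, b = I + J - (I' + J') := ⟨_, rfl⟩
  obtain ⟨c, hc⟩ : ∃ c : ℤ, c = a * I + (a + 1) * J - (a' * I' + (a' + 1) * J') := ⟨_, rfl⟩
  have e : F a I J - F a' I' J' = Lam b c + rho * (T a I J - T a' I' J') := by
    unfold F Lam T
    rw [hb, hc]
    push_cast
    ring
  rw [e] at h
  refine ⟨b, c, ?_, ?_, ?_⟩
  · rw [hb]
    push_cast
    rw [abs_le]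
    constructor <;> linarith
  · have h5 : m ^ A ≤ 1 := pow_le_one₀ hm.le (by linarith)
    have h6 : 0 ≤ P * m ^ A := h1.trans h2
    have h7 : P * m ^ A * m ^ A ≤ P * m ^ A * 1 := by gcongr
    rw [abs_le] at h ⊢
    constructor <;> nlinarith [h.1, h.2]
  · have h5 := abs_sub (Lam b c + rho * (T a I J - T a' I' J')) (Lam b c)
    rw [add_sub_cancel_left, abs_mul, abs_of_pos (by linarith : 0 < rho)] at h5
    nlinarith [abs_nonneg (T a I J - T a' I' J')]

theorem window {B : ℕ} {P : ℝ} (hP1 : 1 ≤ P) (hq : 200 * P ^ 3 * m ^ B ≤ 1) :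
    ∃ A : ℕ, 2 * B ≤ A ∧ A ≤ 4 * B ∧ ∀ a a' I J I' J' : ℕ, A ≤ a → a < A + B → A ≤ a' →
      a' < A + B → 0 < I → 0 < I' → (I : ℝ) + J ≤ P → (I' : ℝ) + J' ≤ P →
      |F a I J - F a' I' J'| ≤ 75 * P * (m ^ A) ^ 2 → a = a' ∧ I = I' ∧ J = J' := by
  have hm := m_pos
  have hq0 : 0 < m ^ B := by positivity
  have e2 : m ^ (2 * B) = (m ^ B) ^ 2 := by ring
  have e3 : m ^ (2 * B + B) = (m ^ B) ^ 3 := by ring
  have e4 : m ^ (4 * B) = (m ^ B) ^ 4 := by ring
  have e5 : m ^ (4 * B + B) = (m ^ B) ^ 5 := by ring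
  generalize m ^ B = q at *
  have hP2 : P ≤ P ^ 2 := by nlinarith
  have hP3 : P ^ 2 ≤ P ^ 3 := by nlinarith
  have hq2 : 200 * P ^ 2 * q ≤ 1 := by nlinarith
  have hq1 : q ≤ 1 / 200 := by nlinarith
  by_cases hc : ∃ b0 e0 : ℤ, (b0 ≠ 0 ∨ e0 ≠ 0) ∧ |(b0 : ℝ)| ≤ P ∧ |Lam b0 e0| ≤ 77 * P * q ^ 4
  · obtain ⟨b0, e0, h0, hb0, h2⟩ := hc
    refine ⟨2 * B, le_rfl, by omega, fun a a' I J I' J' h1 h2' h3 h4 hI hI' hP hP' h => ?_⟩
    obtain ⟨b, e, hb, h5, h6⟩ := F_sub h1 h3 hP hP' h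
    rw [e2] at h5 h6
    have h7 : q ^ 4 ≤ q ^ 2 := pow_le_pow_of_le_one hq0.le (by linarith) (by norm_num)
    have h8 := gap h0 hb0 hb hP1 h2 h5 (by gcongr) (by nlinarith)
    refine sepT h2' h4 hI hI' hP hP' ?_
    rw [e3]
    have h9 : P * |T a I J - T a' I' J'| ≤ P * (P * (77 * P * q ^ 4) + 75 * P * (q ^ 2) ^ 2) := by
      gcongr
      linarith
    have h10 : 0 < q ^ 3 := by positivity
    have h11 := mul_le_mul_of_nonneg_left hq h10.le
    have h12 := mul_le_mul_of_nonneg_left hq2 h10.le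
    nlinarith
  · push Not at hc
    refine ⟨4 * B, by omega, le_rfl, fun a a' I J I' J' h1 h2' h3 h4 hI hI' hP hP' h => ?_⟩
    obtain ⟨b, e, hb, h5, h6⟩ := F_sub h1 h3 hP hP' h
    rw [e4] at h5 h6
    have h7 : Lam b e = 0 := by
      by_contra hne
      refine absurd h5 (not_le.2 (hc b e ?_ hb))
      by_contra h0
      push Not at h0
      simp [Lam, h0.1, h0.2] at hne
    rw [h7, abs_zero, zero_add] at h6
    refine sepT h2' h4 hI hI' hP hP' ?_
    rw [e5]
    have h8 : (q ^ 4) ^ 2 ≤ q ^ 6 := by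
      rw [← pow_mul]
      exact pow_le_pow_of_le_one hq0.le (by linarith) (by norm_num)
    have h9 : P * |T a I J - T a' I' J'| ≤ P * (75 * P * q ^ 6) := by
      gcongr
      exact h6.trans (by gcongr)
    have h10 : 0 < q ^ 5 := by positivity
    have h12 := mul_le_mul_of_nonneg_left hq2 h10.le
    nlinarith

end Pool.Agent.MP_110442_nt.Mk

end MrgPart2

-- marker of a merged file
example : 731051 + 664292 = 731051 + 664292 := rfl
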