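import Mathlib.Analysis.PSeries
import Pool.Agent.MP_110442_nt.Mk.Col

set_option autoImplicit false

/-! Counting the distinct values. -/

namespace Pool.Agent.MP_110442_nt.Mk

open Real Finset

/-- Coprime pairs with odd first entry. -/
def S (N : ℕ) : Finset (ℕ × ℕ) :=
  (Ioc 0 N ×ˢ Ioc 0 N).filter fun p => p.1 % 2 = 1 ∧ Nat.Coprime p.1 p.2

lemma S_card {N : ℕ} (hN : 3 ≤ N) : (N : ℝ) ^ 2 / 18 ≤ (S N).card := by
  have hsub : Ioc 0 N ×ˢ Ioc 0 N ⊆ (S N ∪ (Ioc 0 N).filter (2 ∣ ·) ×ˢ Ioc 0 N) ∪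
      (insert 3 (Ioc 3 N)).biUnion fun d =>
        (Ioc 0 N).filter (d ∣ ·) ×ˢ (Ioc 0 N).filter (d ∣ ·) := by
    rintro ⟨i, j⟩ hp
    have hp' := hp
    simp only [mem_product, mem_Ioc] at hp'
    by_cases h2 : 2 ∣ i
    · exact mem_union_left _ (mem_union_right _ (by simp [hp', h2]))
    by_cases hc : Nat.Coprime i j
    · exact mem_union_left _ (mem_union_left _ (mem_filter.2 ⟨hp, by omega, hc⟩))
    refine mem_union_right _ (mem_biUnion.2 ⟨Nat.gcd i j, ?_, ?_⟩)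
    · have h1 := Nat.gcd_dvd_left i j
      have h3 := Nat.le_of_dvd hp'.1.1 h1
      have h4 := Nat.pos_of_dvd_of_pos h1 hp'.1.1
      have h5 : Nat.gcd i j ≠ 2 := fun h => h2 (h ▸ h1)
      have h6 : Nat.gcd i j ≠ 1 := hc
      simp only [mem_insert, mem_Ioc]
      omega
    · simp [hp', Nat.gcd_dvd_left, Nat.gcd_dvd_right]
  have h1 := (card_le_card hsub).trans ((card_union_le _ _).trans
    (add_le_add (card_union_le _ _) card_biUnion_le))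
  simp only [card_product, Nat.card_Ioc, Nat.sub_zero, Nat.Ioc_filter_dvd_card_eq_div] at h1
  have h2 : ((N * N : ℕ) : ℝ) ≤ _ := Nat.cast_le.2 h1
  push_cast at h2
  have h3 : ((N / 2 : ℕ) : ℝ) ≤ N / 2 := Nat.cast_div_le
  have h4 : ∑ d ∈ insert 3 (Ioc 3 N), ((N / d : ℕ) : ℝ) * ((N / d : ℕ) : ℝ) ≤
      ∑ d ∈ insert 3 (Ioc 3 N), (N : ℝ) ^ 2 * ((d : ℝ) ^ 2)⁻¹ := by
    refine sum_le_sum fun d _ => ?_
    have h : ((N / d : ℕ) : ℝ) ≤ N / d := Nat.cast_div_le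
    calc _ ≤ (N / d : ℝ) * (N / d) := by gcongr
      _ = _ := by ring
  rw [← mul_sum, sum_insert (f := fun d : ℕ => ((d : ℝ) ^ 2)⁻¹) (by simp)] at h4
  have h5 := sum_Ioc_inv_sq_le_sub (α := ℝ) (k := 3) (by norm_num) hN
  have h6 : (0 : ℝ) ≤ (N : ℝ)⁻¹ := by positivity
  have hN0 : (0 : ℝ) ≤ N := Nat.cast_nonneg N
  have h7 : (N : ℝ) ^ 2 * ((((3 : ℕ) : ℝ) ^ 2)⁻¹ + ∑ d ∈ Ioc 3 N, ((d : ℝ) ^ 2)⁻¹) ≤
      (N : ℝ) ^ 2 * (4 / 9) := by
    gcongr
    push_cast at h5 ⊢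
    linarith
  nlinarith [mul_le_mul_of_nonneg_right h3 hN0]

lemma F_le {a I J B : ℕ} {P : ℝ} (ha : a < 5 * B) (hP : (I : ℝ) + J ≤ P) :
    F a I J ≤ 37 * B * P := by
  have hl := l_lo
  have hl2 := l_hi
  have hk := k_lo
  have hk2 := k_hi
  have hr := rho_lo
  have hr2 := rho_hi
  obtain ⟨h1, h2⟩ := T_bd (Nat.zero_le a) hP
  have h3 : log k ≤ 0 := log_nonpos (by linarith) (by linarith)
  have h4 : log l ≤ 7 := (log_le_sub_one_of_pos (by linarith)).trans (by linarith)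
  have hI : (0 : ℝ) ≤ I := Nat.cast_nonneg _
  have hJ : (0 : ℝ) ≤ J := Nat.cast_nonneg _
  have ha0 : (0 : ℝ) ≤ a := Nat.cast_nonneg _
  have ha' : (a : ℝ) + 1 ≤ 5 * B := by exact_mod_cast ha
  have hB : (1 : ℝ) ≤ B := by exact_mod_cast (by omega : 1 ≤ B)
  have h5 : (a + 1 : ℝ) * (I + J) ≤ 5 * B * P := by gcongr
  have h6 : (a * I + (a + 1) * J : ℝ) * log l ≤ 5 * B * P * 7 := by
    have := log_l
    gcongr
    · nlinarith
    · linarith
  have h7 : (I + J : ℝ) * log k ≤ 0 := mul_nonpos_of_nonneg_of_nonpos (by linarith) h3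
  have h8 : F a I J = (I + J) * log k + (a * I + (a + 1) * J) * log l + rho * T a I J := rfl
  rw [pow_zero, mul_one] at h2
  nlinarith

lemma count {N B X : ℕ} (hN : 3 ≤ N) (hB : 1 ≤ B) (hq : 200 * (8 * N : ℝ) ^ 3 * m ^ B ≤ 1)
    (hX0 : 0 < X) (hX : 600 * B * N ≤ log X) :
    B * ((N : ℝ) ^ 2 / 18) ≤ {n : ℕ | n ≤ X ∧ Sol n}.ncard := by
  have hN' : (3 : ℝ) ≤ N := by exact_mod_cast hN
  have hB' : (1 : ℝ) ≤ B := by exact_mod_cast hB
  have hm := m_pos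
  have hm2 := m_hi
  obtain ⟨A, hA1, hA2, hw⟩ := window (P := 8 * N) (by linarith) hq
  have hex : ∀ p : ℕ × ℕ × ℕ, ∃ n : ℕ, p ∈ Ico A (A + B) ×ˢ S N → Sol n ∧
      |log (n + 4) - F p.1 (p.2.1 + 4 * p.2.2) (p.2.1 + 2 * p.2.2)| ≤ 300 * N * (m ^ p.1) ^ 2 := by
    rintro ⟨a, i, j⟩
    by_cases hp : (a, i, j) ∈ Ico A (A + B) ×ˢ S N
    · have hp' := hp
      simp only [S, mem_product, mem_filter, mem_Ioc, mem_Ico] at hp'
      obtain ⟨n, hn⟩ := vertex (a := a) (N := N) (by omega) hp'.2.2.1 hp'.2.1.2.1 hp'.2.2.2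
        hp'.2.1.1.2 hp'.2.1.2.2
      exact ⟨n, fun _ => hn⟩
    · exact ⟨0, fun h => absurd h hp⟩
  choose f hf using hex
  have hP : ∀ i j : ℕ, i ≤ N → j ≤ N →
      ((i + 4 * j : ℕ) : ℝ) + ((i + 2 * j : ℕ) : ℝ) ≤ 8 * N := by
    intro i j hi hj
    exact_mod_cast (by omega : i + 4 * j + (i + 2 * j) ≤ 8 * N)
  have hle : ∀ a : ℕ, A ≤ a → 300 * N * (m ^ a) ^ 2 ≤ 300 * N * (m ^ A) ^ 2 := fun a ha =>
    mul_le_mul_of_nonneg_left (pow_le_pow_left₀ (by positivity)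
      (pow_le_pow_of_le_one hm.le (by linarith) ha) 2) (by positivity)
  have h1 : ((Ico A (A + B) ×ˢ S N : Finset _) : Set (ℕ × ℕ × ℕ)).ncard ≤
      {n : ℕ | n ≤ X ∧ Sol n}.ncard := by
    refine Set.ncard_le_ncard_of_injOn f ?_ ?_ ((Set.finite_Iic X).subset fun n hn => hn.1)
    · rintro ⟨a, i, j⟩ hp
      obtain ⟨h1, h2⟩ := hf _ hp
      refine ⟨?_, h1⟩
      simp only [S, mem_coe, mem_product, mem_filter, mem_Ioc, mem_Ico] at hp
      have h3 := F_le (a := a) (B := B) (by omega) (hP i j hp.2.1.1.2 hp.2.1.2.2)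
      have h4 := hle a hp.1.1
      have h5 : (m ^ A) ^ 2 ≤ 1 := pow_le_one₀ (by positivity) (pow_le_one₀ hm.le (by linarith))
      have h6 : log (f (a, i, j) + 4) ≤ log X := by
        have := (abs_le.1 h2).2
        nlinarith
      rw [log_le_log_iff (by positivity) (by exact_mod_cast hX0)] at h6
      have h7 : (f (a, i, j) : ℝ) ≤ X := by linarith
      exact_mod_cast h7
    · rintro ⟨a, i, j⟩ hp ⟨a', i', j'⟩ hp' he
      obtain ⟨-, h2⟩ := hf _ hp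
      obtain ⟨-, h2'⟩ := hf _ hp'
      simp only [S, mem_coe, mem_product, mem_filter, mem_Ioc, mem_Ico] at hp hp'
      rw [he] at h2
      have h3 := hle a hp.1.1
      have h3' := hle a' hp'.1.1
      obtain ⟨e1, e2, e3⟩ := hw a a' (i + 4 * j) (i + 2 * j) (i' + 4 * j') (i' + 2 * j') hp.1.1
        hp.1.2 hp'.1.1 hp'.1.2 (by omega) (by omega) (hP i j hp.2.1.1.2 hp.2.1.2.2)
        (hP i' j' hp'.2.1.1.2 hp'.2.1.2.2) (by
          rw [abs_le] at h2 h2' ⊢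
          constructor <;> linarith [h2.1, h2.2, h2'.1, h2'.2])
      simp only [Prod.mk.injEq]
      omega
  rw [Set.ncard_coe_finset, card_product, Nat.card_Ico, Nat.add_sub_cancel_left] at h1
  have h2 : ((B * (S N).card : ℕ) : ℝ) ≤ _ := Nat.cast_le.2 h1
  push_cast at h2
  exact (mul_le_mul_of_nonneg_left (S_card hN) (by linarith)).trans h2

theorem main {X : ℕ} (hX : (18000 : ℝ) ^ 2 ≤ log X) :
    1 / 129600000 * log X ^ 2 / log (log X) ≤ {n : ℕ | n ≤ X ∧ Sol n}.ncard := by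
  have hX0 : 0 < X := by
    rcases Nat.eq_zero_or_pos X with rfl | h
    · norm_num at hX
    · exact h
  obtain ⟨L, hL⟩ : ∃ L, L = log X := ⟨_, rfl⟩
  rw [← hL] at hX ⊢
  have hL0 : 0 < L := by linarith
  have h1 : 1 ≤ log L := by
    rw [le_log_iff_exp_le hL0]
    linarith [exp_one_lt_d9]
  have h2 : 9000 * log L ≤ L := by
    have h3 : (18000 : ℝ) ≤ √L := Real.le_sqrt_of_sq_le hX
    have h4 : log √L ≤ √L - 1 := log_le_sub_one_of_pos (by linarith)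
    rw [log_sqrt hL0.le] at h4
    nlinarith [Real.mul_self_sqrt hL0.le]
  obtain ⟨B, hB⟩ : ∃ B, B = ⌈4 * log L⌉₊ := ⟨_, rfl⟩
  have hB1 : 4 * log L ≤ B := hB ▸ Nat.le_ceil _
  have hB2 : (B : ℝ) ≤ 5 * log L := by
    have := Nat.ceil_lt_add_one (a := 4 * log L) (by linarith)
    rw [← hB] at this
    linarith
  have hB0 : (0 : ℝ) < B := by linarith
  obtain ⟨N, hN⟩ : ∃ N, N = ⌊L / (600 * B)⌋₊ := ⟨_, rfl⟩
  have h3 : 3 ≤ L / (600 * B) := by
    rw [le_div_iff₀ (by positivity)]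
    linarith
  have hN1 : (N : ℝ) ≤ L / (600 * B) := hN ▸ Nat.floor_le (by linarith)
  have hN2 : L / (600 * B) < N + 1 := hN ▸ Nat.lt_floor_add_one _
  have hN3 : 3 ≤ N := hN ▸ Nat.le_floor (by exact_mod_cast h3)
  have hN3' : (3 : ℝ) ≤ N := by exact_mod_cast hN3
  rw [le_div_iff₀ (by positivity)] at hN1
  rw [div_lt_iff₀ (by positivity)] at hN2
  have hq : 200 * (8 * N : ℝ) ^ 3 * m ^ B ≤ 1 := by
    have hl := l_lo
    have hm := m_pos
    have e1 : L ^ 4 ≤ l ^ B := by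
      rw [← log_le_log_iff (by positivity) (by positivity), log_pow, log_pow]
      push_cast
      nlinarith [log_l]
    have e2 : 600 * (N : ℝ) ≤ L := by nlinarith
    have e3 : (600 * N : ℝ) ^ 3 ≤ L ^ 3 := by gcongr
    have e4 : L ^ 3 ≤ L ^ 4 := pow_le_pow_right₀ (by linarith) (by norm_num)
    have e5 : 200 * (8 * N : ℝ) ^ 3 ≤ l ^ B := by nlinarith [pow_pos (by linarith : (0 : ℝ) < N) 3]
    calc _ ≤ l ^ B * m ^ B := by gcongr
      _ = 1 := lm_pow B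
  have hB3 : 1 ≤ B := by exact_mod_cast hB0
  refine le_trans ?_ (count hN3 hB3 hq hX0 (by rw [← hL]; linarith))
  rw [div_le_iff₀ (by linarith)]
  have e1 : L ≤ 1200 * B * N := by nlinarith
  have e2 : L ^ 2 ≤ (1200 * B * N) ^ 2 := by gcongr
  have e3 : (B : ℝ) * N ^ 2 * B ≤ B * N ^ 2 * (5 * log L) := by gcongr
  nlinarith

end Pool.Agent.MP_110442_nt.Mk
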